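import Mathlib

set_option autoImplicit false

namespace Pool.Agent.Results.MP_fc8d4d_co.Grid

open SimpleGraph

/-- distance from `v` to the colour class `i` of `c` -/
noncomputable def code {V α : Type} (G : SimpleGraph V) (c : V → α) (v : V) (i : α) : ℕ :=
  sInf {n | ∃ u, c u = i ∧ G.dist v u = n}

/-- a locating colouring: proper, all colour classes nonempty, colour codes pairwise distinct -/
def IsLocating {V α : Type} (G : SimpleGraph V) (c : V → α) : Prop :=
  (∀ u v, G.Adj u v → c u ≠ c v) ∧ Function.Surjective c ∧ Function.Injective (code G c)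

/-- the locating chromatic number -/
noncomputable def chiL {V : Type} (G : SimpleGraph V) : ℕ :=
  sInf {k | ∃ c : V → Fin k, IsLocating G c}

lemma IsLocating.equiv {V α β : Type} {G : SimpleGraph V} {c : V → α} (h : IsLocating G c)
    (e : α ≃ β) : IsLocating G (e ∘ c) := by
  refine ⟨fun u v huv he => h.1 u v huv (e.injective he), e.surjective.comp h.2.1,
    fun u v huv => h.2.2 (funext fun i => ?_)⟩
  have := congrFun huv (e i)
  simpa [code] using this

lemma chiL_le {V α : Type} [Fintype α] {G : SimpleGraph V} {c : V → α} (h : IsLocating G c) :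
    chiL G ≤ Fintype.card α :=
  Nat.sInf_le ⟨_, h.equiv (Fintype.equivFin α)⟩

lemma code_single {V α : Type} (G : SimpleGraph V) (c : V → α) (w : V)
    (hw : ∀ u, c u = c w → u = w) (v : V) : code G c v (c w) = G.dist v w := by
  have : {n | ∃ u, c u = c w ∧ G.dist v u = n} = {G.dist v w} := by
    ext n
    simp only [Set.mem_ofPred_eq, Set.mem_singleton_iff]
    exact ⟨fun ⟨u, h1, h2⟩ => by rw [← h2, hw u h1], fun h => ⟨w, rfl, h.symm⟩⟩
  simp [code, this]

lemma loc_id {V : Type} {G : SimpleGraph V} (hG : G.Connected) : IsLocating G (id : V → V) := by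
  refine ⟨fun u v h => h.ne, Function.surjective_id, fun u v huv => ?_⟩
  have h1 := congrFun huv v
  have h2 := code_single G id v (fun _ h => h)
  simp only [id] at h2
  rw [h2, h2, dist_self] at h1
  exact hG.dist_eq_zero_iff.1 h1

lemma card_le {V : Type} [Fintype V] {G : SimpleGraph V} (hG : G.Connected) (D : ℕ)
    (hD : ∀ u v, G.dist u v ≤ D) : Fintype.card V ≤ (D + 1) ^ chiL G := by
  have hne : {k | ∃ c : V → Fin k, IsLocating G c}.Nonempty :=
    ⟨_, _, (loc_id hG).equiv (Fintype.equivFin V)⟩
  obtain ⟨c, hc⟩ := Nat.sInf_mem hne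
  have hb : ∀ v i, code G c v i < D + 1 := by
    intro v i
    obtain ⟨u, hu⟩ := hc.2.1 i
    exact Nat.lt_succ_of_le ((Nat.sInf_le (show G.dist v u ∈ {n | ∃ u, c u = i ∧ G.dist v u = n}
      from ⟨u, hu, rfl⟩)).trans (hD v u))
  have := Fintype.card_le_of_injective
    (fun v i => (⟨code G c v i, hb v i⟩ : Fin (D + 1))) (fun u v huv => hc.2.2 (funext fun i =>
      congrArg Fin.val (congrFun huv i)))
  simpa [chiL] using this

lemma dist_prod {V : Type} {G : SimpleGraph V} (hG : G.Connected) (D : ℕ)
    (hD : ∀ u v, G.dist u v ≤ D) (x y : V × V) : (G □ G).dist x y ≤ 2 * D := by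
  obtain ⟨p, hp⟩ := hG.exists_walk_length_eq_dist x.1 y.1
  obtain ⟨q, hq⟩ := hG.exists_walk_length_eq_dist x.2 y.2
  have h1 := dist_le (p.map (boxProdLeft G G x.2).toHom)
  have h2 := dist_le (q.map (boxProdRight G G y.1).toHom)
  rw [Walk.length_map] at h1 h2
  have h3 := (hG.boxProd hG).dist_triangle (u := x) (v := (y.1, x.2)) (w := y)
  have := hD x.1 y.1
  have := hD x.2 y.2
  have e1 : (G □ G).dist x (y.1, x.2) ≤ p.length := h1
  have e2 : (G □ G).dist (y.1, x.2) y ≤ q.length := h2
  omega

/-! ### grids -/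

def rho {d m : ℕ} (x y : Fin d → Fin (m + 1)) : ℕ := ∑ i, Nat.dist (x i) (y i)

lemma rho_comm {d m : ℕ} (x y : Fin d → Fin (m + 1)) : rho x y = rho y x := by
  simp [rho, Nat.dist_comm]

lemma rho_self {d m : ℕ} (x : Fin d → Fin (m + 1)) : rho x x = 0 := by simp [rho]

lemma rho_tri {d m : ℕ} (x y z : Fin d → Fin (m + 1)) : rho x z ≤ rho x y + rho y z := by
  simp only [rho, ← Finset.sum_add_distrib]
  exact Finset.sum_le_sum fun i _ => Nat.dist.triangle_inequality _ _ _

def grid (d m : ℕ) : SimpleGraph (Fin d → Fin (m + 1)) where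
  Adj x y := rho x y = 1
  symm := ⟨fun x y h => by rw [rho_comm]; exact h⟩
  loopless := ⟨fun x h => by rw [rho_self] at h; omega⟩

lemma rho_le {d m : ℕ} {x y : Fin d → Fin (m + 1)} (p : (grid d m).Walk x y) :
    rho x y ≤ p.length := by
  induction p with
  | nil => simp [rho_self]
  | @cons a b c h p ih =>
    have := rho_tri a b c
    have h' : rho a b = 1 := h
    simp only [Walk.length_cons]
    omega

lemma rho_update {d m : ℕ} (x y : Fin d → Fin (m + 1)) (i : Fin d) (t : Fin (m + 1)) :
    rho (Function.update x i t) y + Nat.dist (x i) (y i) = rho x y + Nat.dist t (y i) := by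
  simp only [rho]
  rw [← Finset.add_sum_erase _ _ (Finset.mem_univ i), ← Finset.add_sum_erase _ _ (Finset.mem_univ i)]
  have : ∑ j ∈ Finset.univ.erase i, Nat.dist (Function.update x i t j) (y j) =
      ∑ j ∈ Finset.univ.erase i, Nat.dist (x j) (y j) :=
    Finset.sum_congr rfl fun j hj => by rw [Function.update_of_ne (Finset.ne_of_mem_erase hj)]
  rw [this, Function.update_self]
  omega

lemma walk_rho {d m : ℕ} : ∀ (n : ℕ) (x y : Fin d → Fin (m + 1)), rho x y = n →
    ∃ p : (grid d m).Walk x y, p.length = n := by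
  intro n
  induction n with
  | zero =>
    intro x y h
    have : x = y := funext fun i => Fin.ext (Nat.eq_of_dist_eq_zero
      (Finset.sum_eq_zero_iff.1 h i (Finset.mem_univ i)))
    subst this
    exact ⟨Walk.nil, rfl⟩
  | succ n ih =>
    intro x y h
    obtain ⟨i, hi⟩ : ∃ i, (x i).val ≠ (y i).val := by
      by_contra hc
      push Not at hc
      have : x = y := funext fun i => Fin.ext (hc i)
      rw [this, rho_self] at h
      omega
    have hx := (x i).2
    have hy := (y i).2
    obtain ⟨t, t1, t2⟩ : ∃ t : Fin (m + 1), Nat.dist t (x i) = 1 ∧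
        Nat.dist t (y i) + 1 = Nat.dist (x i) (y i) := by
      rcases lt_or_gt_of_ne hi with h1 | h1
      · exact ⟨⟨(x i).val + 1, by omega⟩, by simp only [Nat.dist]; omega,
          by simp only [Nat.dist]; omega⟩
      · exact ⟨⟨(x i).val - 1, by omega⟩, by simp only [Nat.dist]; omega,
          by simp only [Nat.dist]; omega⟩
    have a1 := rho_update x x i t
    have a2 := rho_update x y i t
    rw [rho_self, Nat.dist_self] at a1
    obtain ⟨p, hp⟩ := ih (Function.update x i t) y (by omega)
    have hadj : (grid d m).Adj x (Function.update x i t) := by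
      show rho _ _ = 1
      rw [rho_comm]; omega
    exact ⟨Walk.cons hadj p, by simp [hp]⟩

lemma grid_conn (d m : ℕ) : (grid d m).Connected :=
  ⟨fun x y => ⟨(walk_rho _ x y rfl).choose⟩⟩

lemma grid_dist {d m : ℕ} (x y : Fin d → Fin (m + 1)) : (grid d m).dist x y = rho x y := by
  obtain ⟨p, hp⟩ := walk_rho _ x y rfl
  obtain ⟨q, hq⟩ := (grid_conn d m).exists_walk_length_eq_dist x y
  have := dist_le p
  have := rho_le q
  omega

lemma rho_bound {d m : ℕ} (x y : Fin d → Fin (m + 1)) : rho x y ≤ d * m := by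
  have : rho x y ≤ ∑ _i : Fin d, m := Finset.sum_le_sum fun i _ => by
    have := (x i).2; have := (y i).2
    simp only [Nat.dist]; omega
  simpa using this

def pt {d m : ℕ} (i : Fin d) (t : Fin (m + 1)) : Fin d → Fin (m + 1) := Function.update 0 i t

lemma rho_pt {d m : ℕ} (x : Fin d → Fin (m + 1)) (i : Fin d) (t : Fin (m + 1)) :
    rho x (pt i t) + (x i).val = rho x 0 + Nat.dist t (x i) := by
  have := rho_update (0 : Fin d → Fin (m + 1)) x i t
  rw [rho_comm x, rho_comm x, pt]
  simpa [Nat.dist] using this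

lemma parity {d m : ℕ} (x y : Fin d → Fin (m + 1)) : (rho x 0 + rho y 0 + rho x y) % 2 = 0 := by
  simp only [rho, ← Finset.sum_add_distrib]
  apply Nat.mod_eq_zero_of_dvd
  refine Finset.dvd_sum fun i _ => ?_
  simp only [Nat.dist, Pi.zero_apply, Fin.val_zero]
  omega

/-- landmarks -/
def lm {d m : ℕ} : Option (Fin d) → Fin d → Fin (m + 1)
  | none => 0
  | some i => pt i (Fin.last m)

lemma lm_inj {d m : ℕ} (hm : 0 < m) : Function.Injective (lm : Option (Fin d) → Fin d → Fin (m + 1)) := by
  have hl : (Fin.last m) ≠ 0 := fun h => by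
    have := congrArg Fin.val h
    simp at this; omega
  rintro (_ | i) (_ | j) h
  · rfl
  · have := congrFun h j
    simp [lm, pt] at this
    omega
  · have := congrFun h i
    simp [lm, pt] at this
    exact absurd this (by simpa using hl)
  · by_contra hc
    have hij : i ≠ j := fun e => hc (by rw [e])
    have := congrFun h i
    simp [lm, pt, Function.update_of_ne hij] at this
    exact absurd this (by simpa using hl)

open Classical in
noncomputable def col {d m : ℕ} (x : Fin d → Fin (m + 1)) : Option (Fin d) ⊕ Bool :=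
  if h : ∃ a, lm a = x then Sum.inl h.choose else Sum.inr (decide (rho x 0 % 2 = 0))

lemma col_lm {d m : ℕ} (hm : 0 < m) (a : Option (Fin d)) :
    col (lm a : Fin d → Fin (m + 1)) = Sum.inl a := by
  have h : ∃ b, lm b = (lm a : Fin d → Fin (m + 1)) := ⟨a, rfl⟩
  rw [col, dif_pos h, lm_inj hm h.choose_spec]

lemma col_inl {d m : ℕ} (x : Fin d → Fin (m + 1)) (a : Option (Fin d)) (h : col x = Sum.inl a) :
    x = lm a := by
  unfold col at h
  split_ifs at h with h1
  rw [← Sum.inl.inj h, h1.choose_spec]

lemma col_pt {d m : ℕ} (i : Fin d) (t : Fin (m + 1)) (h0 : 0 < t.val) (h1 : t.val < m) :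
    col (pt i t) = Sum.inr (decide (t.val % 2 = 0)) := by
  have hn : ¬ ∃ a, lm a = pt i t := by
    rintro ⟨_ | j, h⟩
    · have := congrArg Fin.val (congrFun h i)
      simp [lm, pt] at this; omega
    · have := congrArg Fin.val (congrFun h i)
      by_cases e : i = j
      · subst e; simp [lm, pt] at this; omega
      · simp [lm, pt, Function.update_of_ne e] at this; omega
  have := rho_pt (0 : Fin d → Fin (m + 1)) i t
  rw [rho_self, rho_comm] at this
  rw [col, dif_neg hn]
  simp only [Nat.dist, Pi.zero_apply, Fin.val_zero] at this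
  congr 2
  rw [show rho (pt i t) 0 = t.val by omega]

lemma col_loc {d m : ℕ} (hd : 0 < d) (hm : 3 ≤ m) : IsLocating (grid d m) col := by
  refine ⟨fun u v huv h => ?_, ?_, fun u v huv => ?_⟩
  · have h1 : rho u v = 1 := huv
    rcases hc : col u with a | b
    · exact huv.ne ((col_inl u a hc).trans (col_inl v a (h ▸ hc)).symm)
    · have hu : ¬ ∃ a, lm a = u := fun ⟨a, ha⟩ => by
        rw [← ha, col_lm (by omega)] at hc; cases hc
      have hv : ¬ ∃ a, lm a = v := fun ⟨a, ha⟩ => by
        rw [h, ← ha, col_lm (by omega)] at hc; cases hc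
      rw [col, col, dif_neg hu, dif_neg hv] at h
      have := parity u v
      simp only [Sum.inr.injEq, decide_eq_decide] at h
      omega
  · rintro (a | b)
    · exact ⟨lm a, col_lm (by omega) a⟩
    · cases b
      · exact ⟨pt ⟨0, hd⟩ ⟨1, by omega⟩, by
          rw [col_pt _ _ (by simp) (by show 1 < m; omega)]; rfl⟩
      · exact ⟨pt ⟨0, hd⟩ ⟨2, by omega⟩, by
          rw [col_pt _ _ (by simp) (by show 2 < m; omega)]; simp⟩
  · have key : ∀ a : Option (Fin d), rho u (lm a) = rho v (lm a) := by
      intro a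
      have h1 := congrFun huv (col (lm a : Fin d → Fin (m + 1)))
      have hw : ∀ x : Fin d → Fin (m + 1), col x = col (lm a : Fin d → Fin (m + 1)) → x = lm a :=
        fun x hx => col_inl x a (by rw [hx, col_lm (by omega)])
      rwa [code_single _ _ _ hw, code_single _ _ _ hw, grid_dist, grid_dist] at h1
    funext i
    have h0 : rho u 0 = rho v 0 := key none
    have h1 : rho u (pt i (Fin.last m)) = rho v (pt i (Fin.last m)) := key (some i)
    have a1 := rho_pt u i (Fin.last m)
    have a2 := rho_pt v i (Fin.last m)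
    have := (u i).2
    have := (v i).2
    simp only [Nat.dist, Fin.val_last] at a1 a2
    apply Fin.ext
    omega

lemma main : ∀ C : ℕ, ∃ (V : Type) (_ : Fintype V) (G : SimpleGraph V), G.Connected ∧
    chiL G + C < chiL (G □ G) := by
  intro C
  obtain ⟨d, hd⟩ : ∃ d, d = C + 4 := ⟨_, rfl⟩
  obtain ⟨m, hm⟩ : ∃ m, m = (2 * d) ^ (2 * d - 1) + 3 := ⟨_, rfl⟩
  refine ⟨_, inferInstance, grid d m, grid_conn d m, ?_⟩
  have h1 := chiL_le (col_loc (d := d) (m := m) (by omega) (by omega))
  simp only [Fintype.card_sum, Fintype.card_option, Fintype.card_fin, Fintype.card_bool] at h1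
  have hD : ∀ u v, (grid d m).dist u v ≤ d * m := fun u v => by
    rw [grid_dist]; exact rho_bound u v
  have h2 := card_le ((grid_conn d m).boxProd (grid_conn d m)) _ (dist_prod (grid_conn d m) _ hD)
  simp only [Fintype.card_prod, Fintype.card_pi, Fintype.card_fin, Finset.prod_const,
    Finset.card_univ] at h2
  by_contra hc
  have h3 : chiL (grid d m □ grid d m) ≤ 2 * d - 1 := by omega
  have h4 : (2 * (d * m) + 1) ^ chiL (grid d m □ grid d m) ≤ (2 * d * (m + 1)) ^ (2 * d - 1) :=
    (Nat.pow_le_pow_right (by omega) h3).trans (Nat.pow_le_pow_left (by nlinarith) _)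
  have h5 : (m + 1) ^ d * (m + 1) ^ d = (m + 1) * (m + 1) ^ (2 * d - 1) := by
    rw [← pow_add, ← pow_succ']; congr 1; omega
  rw [mul_pow] at h4
  have h6 : 0 < (m + 1) ^ (2 * d - 1) := by positivity
  have h7 := Nat.le_of_mul_le_mul_right (h5 ▸ (h2.trans h4)) h6
  omega

/-- The excess of `χ_L(G □ H)` over `max (χ_L G) (χ_L H)` is unbounded (already for `H = G`). -/
theorem result : ∀ C : ℕ, ∃ (V W : Type) (_ : Fintype V) (_ : Fintype W) (G : SimpleGraph V)
    (H : SimpleGraph W), G.Connected ∧ H.Connected ∧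
      max (chiL G) (chiL H) + C < chiL (G □ H) := by
  intro C
  obtain ⟨V, i, G, h1, h2⟩ := main C
  exact ⟨V, V, i, i, G, G, h1, h1, by rwa [max_self]⟩

end Pool.Agent.Results.MP_fc8d4d_co.Grid
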